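import Pool.Agent.Helper92.JZ.OPW

/-! Module QHS: the masses of the lifts for one `a ≠ 0` tend to zero. -/

set_option autoImplicit false

open Finset Filter MeasureTheory Topology
open scoped ComplexConjugate InnerProductSpace

namespace Pool.Agent.Helper40.JZ

open Pool.Agent.Helper16.AZ (T E Op mm fc Ind)
open UnitAddTorus (mFourier)

namespace QHSP

open OPW

variable {r : ℕ}

theorem nsq (F : Lp ℂ 2 (mm r)) : ‖F‖ ^ 2 = ∫ x, ‖(F : T r → ℂ) x‖ ^ 2 ∂(mm r) := by
  have h1 : (inner ℂ F F : ℂ) = ((‖F‖ ^ 2 : ℝ) : ℂ) := by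
    rw [inner_self_eq_norm_sq_to_K]
    push_cast
    rfl
  rw [L2.inner_def] at h1
  have h2 : ∫ x, (inner ℂ ((F : T r → ℂ) x) ((F : T r → ℂ) x) : ℂ) ∂(mm r) =
      ((∫ x, ‖(F : T r → ℂ) x‖ ^ 2 ∂(mm r) : ℝ) : ℂ) := by
    have h3 : ∫ x, ((‖(F : T r → ℂ) x‖ ^ 2 : ℝ) : ℂ) ∂(mm r) =
        ((∫ x, ‖(F : T r → ℂ) x‖ ^ 2 ∂(mm r) : ℝ) : ℂ) := integral_ofReal
    rw [← h3]
    refine integral_congr_ae (ae_of_all _ fun x => ?_)
    simp only
    rw [inner_self_eq_norm_sq_to_K]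
    push_cast
    rfl
  rw [h2] at h1
  exact_mod_cast h1.symm

theorem shift_ae {p : T r → Prop} (s : T r) (h : ∀ᵐ x ∂(mm r), p x) :
    ∀ᵐ x ∂(mm r), p (x + s) := (mp_add s).quasiMeasurePreserving.ae h

theorem pj_congr (q : ℕ) (D : T r → T r → U) (j : ℤ) {g g' : T r → ℂ}
    (h : ∀ᵐ x ∂(mm r), g x = g' x) : ∀ᵐ x ∂(mm r), pj q D j g x = pj q D j g' x := by
  have h1 : ∀ᵐ x ∂(mm r), ∀ s ∈ tor r q, g (x + s) = g' (x + s) :=
    (Filter.eventually_all_finset (tor r q)).2 fun s _ => shift_ae s h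
  filter_upwards [h1] with x hx
  unfold pj
  congr 1
  exact Finset.sum_congr rfl fun s hs => by rw [hx s hs]

theorem pj_add (q : ℕ) (D : T r → T r → U) (j : ℤ) (g g' : T r → ℂ) (x : T r) :
    pj q D j (fun y => g y + g' y) x = pj q D j g x + pj q D j g' x := by
  unfold pj
  rw [← add_div, ← Finset.sum_add_distrib]
  congr 1
  exact Finset.sum_congr rfl fun s _ => by ring

theorem pj_smul (q : ℕ) (D : T r → T r → U) (j : ℤ) (c : ℂ) (g : T r → ℂ) (x : T r) :
    pj q D j (fun y => c * g y) x = c * pj q D j g x := by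
  unfold pj
  rw [← mul_div_assoc, Finset.mul_sum]
  congr 1
  exact Finset.sum_congr rfl fun s _ => by ring

/-- the projection as an operator -/
noncomputable def opP (hM : ST_MSF) (q : ℕ) (hq : 1 ≤ q) (D : T r → T r → U)
    (hD : ∀ s ∈ tor r q, Measurable (D s)) : Lp ℂ 2 (mm r) →L[ℂ] Lp ℂ 2 (mm r) :=
  LinearMap.mkContinuous
    { toFun := fun f => (hM r q D 1 f f hq hD (Lp.memLp f) (Lp.memLp f)).1.toLp _
      map_add' := by
        intro f g
        rw [← MemLp.toLp_add]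
        refine MemLp.toLp_congr _ _ ?_
        filter_upwards [pj_congr q D 1 (Lp.coeFn_add f g)] with z hz
        rw [hz]
        exact pj_add q D 1 _ _ z
      map_smul' := by
        intro c f
        rw [← MemLp.toLp_const_smul]
        refine MemLp.toLp_congr _ _ ?_
        filter_upwards [pj_congr q D 1 (Lp.coeFn_smul c f)] with z hz
        rw [hz]
        exact pj_smul q D 1 _ _ z } 1 (by
    intro f
    rw [one_mul]
    have h1 := hM r q D 1 f f hq hD (Lp.memLp f) (Lp.memLp f)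
    show ‖(h1.1.toLp _ : Lp ℂ 2 (mm r))‖ ≤ ‖f‖
    refine le_of_sq_le_sq ?_ (norm_nonneg _)
    rw [nsq, nsq]
    refine le_trans (le_of_eq ?_) h1.2.2.1
    unfold ms
    refine integral_congr_ae ?_
    filter_upwards [h1.1.coeFn_toLp] with x hx
    rw [hx])
where
  le_of_sq_le_sq {a b : ℝ} (h : a ^ 2 ≤ b ^ 2) (hb : 0 ≤ b) : a ≤ b := by
    by_contra hc
    push Not at hc
    nlinarith

variable (hM : ST_MSF) (q : ℕ) (hq : 1 ≤ q) (D : T r → T r → U)
    (hD : ∀ s ∈ tor r q, Measurable (D s))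

theorem opP_ae (F : Lp ℂ 2 (mm r)) :
    ∀ᵐ x ∂(mm r), (opP hM q hq D hD F : T r → ℂ) x = pj q D 1 (F : T r → ℂ) x :=
  (hM r q D 1 F F hq hD (Lp.memLp F) (Lp.memLp F)).1.coeFn_toLp

theorem opP_norm : ‖opP hM q hq D hD‖ ≤ 1 := LinearMap.mkContinuous_norm_le _ zero_le_one _

theorem opP_sq (F : Lp ℂ 2 (mm r)) : ‖opP hM q hq D hD F‖ ^ 2 = ms q D 1 (F : T r → ℂ) := by
  rw [nsq]
  unfold ms
  refine integral_congr_ae ?_
  filter_upwards [opP_ae hM q hq D hD F] with x hx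
  rw [hx]

theorem ms_congr {g g' : T r → ℂ} (h : ∀ᵐ x ∂(mm r), g x = g' x) (j : ℤ) :
    ms q D j g = ms q D j g' := by
  unfold ms
  refine integral_congr_ae ?_
  filter_upwards [pj_congr q D j h] with x hx
  rw [hx]

include hq in
theorem qc : ((q : ℂ) ^ r) ≠ 0 := by
  apply pow_ne_zero
  exact_mod_cast Nat.one_le_iff_ne_zero.mp hq

section cocycle

variable (hT : ST_TOR)
  (hadd : ∀ s ∈ tor r q, ∀ s' ∈ tor r q, ∀ᵐ x ∂(mm r), D (s + s') x = D s (x + s') + D s' x)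

include hT hadd hq in
theorem pj_idem (g : T r → ℂ) :
    ∀ᵐ x ∂(mm r), pj q D 1 (pj q D 1 g) x = pj q D 1 g x := by
  have h1 : ∀ᵐ x ∂(mm r), ∀ s ∈ tor r q, ∀ s' ∈ tor r q,
      D (s' + s) x = D s' (x + s) + D s x :=
    (Filter.eventually_all_finset (tor r q)).2 fun s hs =>
      (Filter.eventually_all_finset (tor r q)).2 fun s' hs' => hadd s' hs' s hs
  have hcard := (hT r q hq).2.1
  filter_upwards [h1] with x hx
  have h2 : ∀ s ∈ tor r q, fourier 1 (D s x) * pj q D 1 g (x + s) =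
      (∑ t ∈ tor r q, fourier 1 (D t x) * g (x + t)) / (q : ℂ) ^ r := by
    intro s hs
    unfold pj
    rw [← mul_div_assoc, Finset.mul_sum]
    congr 1
    rw [← (hT r q hq).2.2.1 s hs (fun t => fourier 1 (D t x) * g (x + t))]
    refine Finset.sum_congr rfl fun s' hs' => ?_
    rw [hx s hs s' hs', e_add, ← mul_assoc, mul_comm (fourier 1 (D s x) : ℂ), add_assoc,
      add_comm s s']
  show (∑ s ∈ tor r q, fourier 1 (D s x) * pj q D 1 g (x + s)) / (q : ℂ) ^ r = _
  rw [Finset.sum_congr rfl h2, Finset.sum_const, hcard, nsmul_eq_mul]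
  unfold pj
  have := qc (r := r) q hq
  push_cast
  field_simp

include hT hadd hq in
theorem D_neg {s : T r} (hs : s ∈ tor r q) :
    ∀ᵐ x ∂(mm r), D s (x + -s) = - D (-s) x := by
  have h0 : (0 : T r) ∈ tor r q := ((hT r q hq).1 0).2 (smul_zero _)
  have hns : -s ∈ tor r q := ((hT r q hq).1 (-s)).2 (by
    rw [smul_neg, ((hT r q hq).1 s).1 hs, neg_zero])
  filter_upwards [hadd 0 h0 0 h0, hadd s hs (-s) hns] with x h1 h2
  rw [add_zero, add_zero] at h1
  have h3 : D 0 x = 0 := by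
    have := h1
    nth_rewrite 1 [← add_zero (D 0 x)] at this
    exact (add_left_cancel this).symm
  rw [add_neg_cancel, h3] at h2
  exact eq_neg_of_add_eq_zero_left h2.symm

include hT in
theorem sum_neg (hq : 1 ≤ q) (F : T r → ℂ) : ∑ s ∈ tor r q, F (-s) = ∑ s ∈ tor r q, F s := by
  refine Finset.sum_nbij' (fun s => -s) (fun s => -s) ?_ ?_ ?_ ?_ ?_
  · intro s hs
    exact ((hT r q hq).1 (-s)).2 (by rw [smul_neg, ((hT r q hq).1 s).1 hs, neg_zero])
  · intro s hs
    exact ((hT r q hq).1 (-s)).2 (by rw [smul_neg, ((hT r q hq).1 s).1 hs, neg_zero])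
  · intro s _
    exact neg_neg s
  · intro s _
    exact neg_neg s
  · intro s _
    rfl

include hT hadd in
theorem opP_symm (F G : Lp ℂ 2 (mm r)) :
    (inner ℂ (opP hM q hq D hD F) G : ℂ) = inner ℂ F (opP hM q hq D hD G) := by
  rw [L2.inner_def, L2.inner_def]
  have hF := Lp.memLp F
  have hG := Lp.memLp G
  have i1 : ∀ s ∈ tor r q, Integrable (fun x => conj (fourier 1 (D s x) * (F : T r → ℂ) (x + s)) *
      (G : T r → ℂ) x) (mm r) := by
    intro s hs
    have h1 : MemLp (fun x => conj (fourier 1 (D s x) * (F : T r → ℂ) (x + s))) 2 (mm r) := by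
      refine (memLp_mul (hD s hs) 1 (memLp_shift s hF)).of_le ?_ (ae_of_all _ fun x => ?_)
      · exact Complex.continuous_conj.comp_aestronglyMeasurable
          (memLp_mul (hD s hs) 1 (memLp_shift s hF)).1
      · rw [Complex.norm_conj]
    exact h1.integrable_mul hG
  have i2 : ∀ s ∈ tor r q, Integrable (fun x => conj ((F : T r → ℂ) x) *
      (fourier 1 (D s x) * (G : T r → ℂ) (x + s))) (mm r) := by
    intro s hs
    have h1 : MemLp (fun x => conj ((F : T r → ℂ) x)) 2 (mm r) := by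
      refine hF.of_le ?_ (ae_of_all _ fun x => ?_)
      · exact Complex.continuous_conj.comp_aestronglyMeasurable hF.1
      · rw [Complex.norm_conj]
    exact h1.integrable_mul (memLp_mul (hD s hs) 1 (memLp_shift s hG))
  have e1 : ∫ x, (inner ℂ ((opP hM q hq D hD F : T r → ℂ) x) ((G : T r → ℂ) x) : ℂ) ∂(mm r) =
      (∑ s ∈ tor r q, ∫ x, conj (fourier 1 (D s x) * (F : T r → ℂ) (x + s)) *
        (G : T r → ℂ) x ∂(mm r)) / (q : ℂ) ^ r := by
    rw [← integral_finsetSum _ i1, ← integral_div]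
    refine integral_congr_ae ?_
    filter_upwards [opP_ae hM q hq D hD F] with x hx
    rw [hx, RCLike.inner_apply]
    unfold pj
    rw [map_div₀, map_sum, map_pow, Complex.conj_natCast, ← mul_div_assoc, mul_comm,
      Finset.sum_mul]
  have e2 : ∫ x, (inner ℂ ((F : T r → ℂ) x) ((opP hM q hq D hD G : T r → ℂ) x) : ℂ) ∂(mm r) =
      (∑ s ∈ tor r q, ∫ x, conj ((F : T r → ℂ) x) *
        (fourier 1 (D s x) * (G : T r → ℂ) (x + s)) ∂(mm r)) / (q : ℂ) ^ r := by
    rw [← integral_finsetSum _ i2, ← integral_div]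
    refine integral_congr_ae ?_
    filter_upwards [opP_ae hM q hq D hD G] with x hx
    rw [hx, RCLike.inner_apply]
    unfold pj
    rw [div_mul_eq_mul_div, Finset.sum_mul]
    congr 1
    exact Finset.sum_congr rfl fun s _ => by ring
  rw [e1, e2]
  congr 1
  rw [← sum_neg q hT hq (fun s => ∫ x, conj ((F : T r → ℂ) x) *
        (fourier 1 (D s x) * (G : T r → ℂ) (x + s)) ∂(mm r))]
  refine Finset.sum_congr rfl fun s hs => ?_
  have h2 := integral_add_right_eq_self (μ := mm r)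
    (fun x => conj (fourier 1 (D s x) * (F : T r → ℂ) (x + s)) * (G : T r → ℂ) x) (-s)
  rw [← h2]
  refine integral_congr_ae ?_
  filter_upwards [D_neg q hq D hT hadd hs] with x hx
  rw [hx, neg_add_cancel_right, map_mul]
  have h3 : conj (fourier 1 (-D (-s) x) : ℂ) = fourier 1 (D (-s) x) := by
    rw [← fourier_neg, fourier_apply, fourier_apply, neg_smul, smul_neg, neg_neg]
  rw [h3]
  ring

end cocycle

theorem opP_comm (θ : T r) (f : T r → U) (a : ℤ) (hf : Measurable fun x => a • f x)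
    (hlift : ∀ s ∈ tor r q, ∀ᵐ x ∂(mm r), D s (x + θ) + a • f x = a • f (x + s) + D s x)
    (F : Lp ℂ 2 (mm r)) :
    opW θ (fun x => a • f x) hf (opP hM q hq D hD F) =
      opP hM q hq D hD (opW θ (fun x => a • f x) hf F) := by
  apply Lp.ext
  have h1 : ∀ᵐ x ∂(mm r), ∀ s ∈ tor r q, D s (x + θ) + a • f x = a • f (x + s) + D s x :=
    (Filter.eventually_all_finset (tor r q)).2 hlift
  filter_upwards [opW_ae θ (fun x => a • f x) hf (opP hM q hq D hD F),
    shift_ae θ (opP_ae hM q hq D hD F),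
    opP_ae hM q hq D hD (opW θ (fun x => a • f x) hf F),
    pj_congr q D 1 (opW_ae θ (fun x => a • f x) hf F), h1] with x h2 h3 h4 h5 h6
  rw [h2, h3, h4, h5]
  unfold pj
  rw [← mul_div_assoc, Finset.mul_sum]
  congr 1
  refine Finset.sum_congr rfl fun s hs => ?_
  rw [← mul_assoc, ← mul_assoc, ← e_add, ← e_add, add_comm (a • f x), h6 s hs,
    add_comm (a • f (x + s)), add_right_comm x θ s]

/-- the bound of the Hilbert-Schmidt norm on a finite set of characters -/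
theorem hs_bound (hT : ST_TOR) (hC : ST_TCH) (hq1 : 1 ≤ q) (B : Finset (Fin r → ℤ))
    (hB : ∀ X ∈ B, ∀ Y ∈ B, (∀ i, ((X i : ℤ) : ZMod q) = ((Y i : ℤ) : ZMod q)) → X = Y)
    (hD : ∀ s ∈ tor r q, Measurable (D s)) :
    ∑ X ∈ B, ms q D 1 (fun x => mFourier X x) ≤ 1 := by
  have : NeZero q := ⟨Nat.one_le_iff_ne_zero.mp hq1⟩
  obtain ⟨-, hC2, hC3, hC4⟩ := hC r q
  have hcard := (hT r q hq1).2.1
  have hqr : (0 : ℝ) < (q : ℝ) ^ r := by
    have : (0 : ℝ) < q := by exact_mod_cast hq1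
    positivity
  have hpt : ∀ (X : Fin r → ℤ) (x : T r), ‖pj q D 1 (fun x => mFourier X x) x‖ ^ 2 =
      ‖∑ s ∈ tor r q, fourier 1 (chi (vz (fun i => ((X i : ℤ) : ZMod q))) s) *
        (fourier 1 (D s x) : ℂ)‖ ^ 2 / ((q : ℝ) ^ r) ^ 2 := by
    intro X x
    have h1 : pj q D 1 (fun x => mFourier X x) x = mFourier X x *
        ((∑ s ∈ tor r q, fourier 1 (chi (vz (fun i => ((X i : ℤ) : ZMod q))) s) *
        (fourier 1 (D s x) : ℂ)) / (q : ℂ) ^ r) := by
      unfold pj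
      rw [← mul_div_assoc, Finset.mul_sum]
      congr 1
      refine Finset.sum_congr rfl fun s hs => ?_
      have h2 : (mFourier X (x + s) : ℂ) = mFourier X x * mFourier X s := by
        simp only [mFourier, ContinuousMap.coe_mk, Pi.add_apply, fourier_apply, smul_add,
          AddCircle.toCircle_add, Circle.coe_mul, Finset.prod_mul_distrib]
      show fourier 1 (D s x) * (mFourier X (x + s) : ℂ) = _
      rw [h2, ← hC2 X _ (fun i => rfl) s hs, hC3, one_smul]
      ring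
    have h3 : ‖(mFourier X x : ℂ)‖ = 1 := by
      show ‖∏ i, fourier (X i) (x i)‖ = 1
      rw [norm_prod]
      exact Finset.prod_eq_one fun i _ => norm_e _ _
    rw [h1, norm_mul, h3, one_mul, norm_div, div_pow, norm_pow, Complex.norm_natCast]
  have hle : ∀ x : T r, ∑ X ∈ B, ‖pj q D 1 (fun x => mFourier X x) x‖ ^ 2 ≤ 1 := by
    intro x
    have h1 := hC4 (fun s => (fourier 1 (D s x) : ℂ))
    have h2 : ∑ X ∈ B, ‖∑ s ∈ tor r q,
        fourier 1 (chi (vz (fun i => ((X i : ℤ) : ZMod q))) s) * (fourier 1 (D s x) : ℂ)‖ ^ 2 ≤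
        ∑ ω : Fin r → ZMod q, ‖∑ s ∈ tor r q,
          fourier 1 (chi (vz ω) s) * (fourier 1 (D s x) : ℂ)‖ ^ 2 := by
      have hinj : Set.InjOn (fun (X : Fin r → ℤ) (i : Fin r) => ((X i : ℤ) : ZMod q)) B := by
        intro X hX Y hY h
        exact hB X hX Y hY fun i => congrFun h i
      rw [← Finset.sum_image (f := fun ω : Fin r → ZMod q => ‖∑ s ∈ tor r q,
          fourier 1 (chi (vz ω) s) * (fourier 1 (D s x) : ℂ)‖ ^ 2) hinj]
      exact Finset.sum_le_sum_of_subset_of_nonneg (Finset.subset_univ _)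
        fun _ _ _ => sq_nonneg _
    rw [Finset.sum_congr rfl fun X _ => hpt X x, ← Finset.sum_div, div_le_one (by positivity)]
    refine h2.trans ?_
    rw [h1]
    have h3 : ∑ s ∈ tor r q, ‖(fourier 1 (D s x) : ℂ)‖ ^ 2 = (q : ℝ) ^ r := by
      rw [Finset.sum_congr rfl fun s _ => by rw [norm_e, one_pow], Finset.sum_const, hcard]
      simp
    rw [h3, sq]
  have hm : ∀ X ∈ B, Integrable (fun x => ‖pj q D 1 (fun x => mFourier X x) x‖ ^ 2) (mm r) := by
    intro X _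
    have hme : Measurable (pj q D 1 (fun x => mFourier X x)) := by
      unfold pj
      refine Measurable.div_const (Finset.measurable_sum _ fun s hs => ?_) _
      exact (meas_e (hD s hs) 1).mul
        (((mFourier X).continuous.measurable).comp (measurable_id.add_const s))
    refine Integrable.of_bound (hme.norm.pow_const 2).aestronglyMeasurable 1
      (ae_of_all _ fun x => ?_)
    rw [Real.norm_of_nonneg (sq_nonneg _)]
    refine le_trans ?_ (hle x)
    rename_i hX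
    exact Finset.single_le_sum (f := fun X => ‖pj q D 1 (fun x => mFourier X x) x‖ ^ 2)
      (fun _ _ => sq_nonneg _) hX
  unfold ms
  rw [← integral_finsetSum _ hm]
  calc ∫ x, ∑ X ∈ B, ‖pj q D 1 (fun x => mFourier X x) x‖ ^ 2 ∂(mm r) ≤
      ∫ _, (1 : ℝ) ∂(mm r) := integral_mono (integrable_finsetSum _ hm)
        (integrable_const _) hle
    _ = 1 := by simp

/-- all properties of the projection -/
theorem exP (hT : ST_TOR) (hM : ST_MSF) (θ : T r) (f : T r → U) (a : ℤ)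
    (hf : Measurable fun x => a • f x) (q : ℕ) (hq : 1 ≤ q) (D : T r → T r → U)
    (hD : Lift θ f q a D) : ∃ P : Lp ℂ 2 (mm r) →L[ℂ] Lp ℂ 2 (mm r), ‖P‖ ≤ 1 ∧
      (∀ F G : Lp ℂ 2 (mm r), (inner ℂ (P F) G : ℂ) = inner ℂ F (P G)) ∧
      (∀ F, P (P F) = P F) ∧
      (∀ F, opW θ (fun x => a • f x) hf (P F) = P (opW θ (fun x => a • f x) hf F)) ∧
      ∀ F, ‖P F‖ ^ 2 = ms q D 1 (F : T r → ℂ) := by
  refine ⟨opP hM q hq D hD.1, opP_norm hM q hq D hD.1,
    fun F G => opP_symm hM q hq D hD.1 hT hD.2.1 F G, fun F => ?_,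
    fun F => opP_comm hM q hq D hD.1 θ f a hf hD.2.2 F, fun F => opP_sq hM q hq D hD.1 F⟩
  apply Lp.ext
  filter_upwards [opP_ae hM q hq D hD.1 (opP hM q hq D hD.1 F),
    opP_ae hM q hq D hD.1 F,
    pj_congr q D 1 (opP_ae hM q hq D hD.1 F),
    pj_idem q hq D hT hD.2.1 (F : T r → ℂ)] with x h1 h2 h3 h4
  rw [h1, h2]
  exact h3.trans h4

theorem spread {n : ℕ} (B : Finset (Fin n → ℤ)) :
    ∃ K : ℕ, ∀ X ∈ B, ∀ Y ∈ B, ∀ i : Fin n, (X i - Y i).natAbs ≤ K := by
  have h1 : ∀ X : Fin n → ℤ, ∃ K : ℕ, ∀ i : Fin n, (X i).natAbs ≤ K := by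
    intro X
    refine ⟨∑ i : Fin n, (X i).natAbs, fun i => ?_⟩
    exact Finset.single_le_sum (f := fun i : Fin n => (X i).natAbs)
      (fun _ _ => Nat.zero_le _) (Finset.mem_univ i)
  choose k hk using h1
  refine ⟨B.sup k + B.sup k, fun X hX Y hY i => ?_⟩
  have h2 := (hk X i).trans (Finset.le_sup (f := k) hX)
  have h3 := (hk Y i).trans (Finset.le_sup (f := k) hY)
  exact (Int.natAbs_sub_le _ _).trans (add_le_add h2 h3)

theorem inj_mod (B : Finset (Fin r → ℤ)) (K q : ℕ)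
    (hK : ∀ X ∈ B, ∀ Y ∈ B, ∀ i, (X i - Y i).natAbs ≤ K) (hq : K < q) :
    ∀ X ∈ B, ∀ Y ∈ B, (∀ i, ((X i : ℤ) : ZMod q) = ((Y i : ℤ) : ZMod q)) → X = Y := by
  intro X hX Y hY hXY
  funext i
  have h2 := hXY i
  rw [ZMod.intCast_eq_intCast_iff_dvd_sub] at h2
  have h3 := hK Y hY X hX i
  have h4 : (Y i - X i).natAbs < q := lt_of_le_of_lt h3 hq
  have h5 : Y i - X i = 0 := by
    by_contra h6
    have h7 := Int.natAbs_dvd_natAbs.mpr h2
    rw [Int.natAbs_natCast] at h7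
    have h8 := Nat.le_of_dvd (Int.natAbs_pos.mpr h6) h7
    omega
  omega

/-- an eigenvector contradicts `NE` -/
theorem eigen (hE : ST_ERG) (θ : T r) (f : T r → U) (hθ : Ind θ) (hNE : NE θ f) (a : ℤ)
    (ha : a ≠ 0) (hfm : Measurable fun x => a • f x) (h : Lp ℂ 2 (mm r)) (c : ℂ) (hh0 : h ≠ 0)
    (hWh : opW θ (fun x => a • f x) hfm h = c • h) : False := by
  have hc : ‖c‖ = 1 := by
    have h1 : ‖opW θ (fun x => a • f x) hfm h‖ = ‖h‖ := by
      have e1 := opW_ae θ (fun x => a • f x) hfm h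
      have h2 : ‖opW θ (fun x => a • f x) hfm h‖ ^ 2 = ‖h‖ ^ 2 := by
        rw [nsq, nsq]
        have h3 := integral_add_right_eq_self (μ := mm r)
          (fun x => ‖(h : T r → ℂ) x‖ ^ 2) θ
        rw [← h3]
        refine integral_congr_ae ?_
        filter_upwards [e1] with x hx
        rw [hx, norm_mul, norm_e, one_mul]
      exact (sq_eq_sq₀ (norm_nonneg _) (norm_nonneg _)).mp h2
    rw [hWh, norm_smul] at h1
    have h2 : 0 < ‖h‖ := norm_pos_iff.mpr hh0
    exact (mul_eq_right₀ h2.ne').mp h1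
  obtain ⟨γ, hγ⟩ : ∃ γ : U, (fourier 1 γ : ℂ) = c := by
    refine ⟨((c.arg / (2 * Real.pi) : ℝ) : U), ?_⟩
    rw [fourier_coe_apply]
    have h1 := Complex.norm_mul_exp_arg_mul_I c
    rw [hc, Complex.ofReal_one, one_mul] at h1
    conv_rhs => rw [← h1]
    congr 1
    push_cast
    have : (2 * (Real.pi : ℂ)) ≠ 0 := by
      simp [Real.pi_ne_zero]
    field_simp
  have hfix : ∀ᵐ x ∂(mm r), (fourier 1 (a • f x + -γ) : ℂ) * (h : T r → ℂ) (x + θ) =
      (h : T r → ℂ) x := by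
    have h1 := Lp.coeFn_smul c h
    have h0 := opW_ae θ (fun x => a • f x) hfm h
    rw [hWh] at h0
    filter_upwards [h0, h1] with x h2 h3
    rw [h2, Pi.smul_apply, smul_eq_mul, ← hγ] at h3
    rw [add_comm, e_add, mul_assoc, h3, ← mul_assoc, ← e_add, neg_add_cancel]
    simp
  have hne : ¬ ∀ᵐ x ∂(mm r), (h : T r → ℂ) x = 0 := by
    intro h0
    apply hh0
    apply Lp.ext
    filter_upwards [h0, Lp.coeFn_zero ℂ 2 (mm r)] with x h1 h2
    rw [h1, h2]
    rfl
  obtain ⟨u, hu, hue⟩ := transfer hE θ hθ (fun x => a • f x + -γ) (Lp.memLp h) hfix hne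
  refine hNE a ha γ (fun x => - u x) hu.neg ?_
  filter_upwards [hue] with x hx
  rw [hx]
  abel

end QHSP

open OPW QHSP in
theorem st_QHS (hT : ST_TOR) (hC : ST_TCH) (hE : ST_ERG) (hM : ST_MSF) (hV : ST_EVC) :
    ST_QHS := by
  intro r θ f hθ hf hNE a g ε ha hg hε
  by_contra hcon
  push Not at hcon
  choose! Q hQ1 hQ2 D hD hms using hcon
  have hq1 : ∀ n, 1 ≤ Q n := fun n => (hQ2 n).one_lt.le
  have hfm : Measurable fun x => a • f x := hf.measurable.const_smul a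
  have hex := fun n => exP hT hM θ f a hfm (Q n) (hq1 n) (D n) (hD n)
  choose P hP1 hP2 hP3 hP4 hP5 using hex
  let e : HilbertBasis (Fin r → ℤ) ℂ (Lp ℂ 2 (mm r)) := UnitAddTorus.mFourierBasis (d := Fin r)
  have he : ∀ X, ∀ᵐ x ∂(mm r), ((e X : Lp ℂ 2 (mm r)) : T r → ℂ) x = mFourier X x := by
    intro X
    have h1 : (e X : Lp ℂ 2 (mm r)) = UnitAddTorus.mFourierLp (d := Fin r) 2 X :=
      congrFun UnitAddTorus.coe_mFourierBasis X
    rw [h1]
    exact UnitAddTorus.coeFn_mFourierLp (d := Fin r) 2 X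
  let gL : Lp ℂ 2 (mm r) := hg.toLp g
  have hmsP : ∀ n, ε ≤ RCLike.re (inner ℂ (P n gL) gL : ℂ) := by
    intro n
    have h1 : (inner ℂ (P n gL) gL : ℂ) = ((‖P n gL‖ ^ 2 : ℝ) : ℂ) := by
      rw [← hP3 n gL, hP2 n, hP3 n, inner_self_eq_norm_sq_to_K]
      push_cast
      rfl
    rw [h1, hP5 n]
    have h2 : ms (Q n) (D n) 1 (gL : T r → ℂ) = ms (Q n) (D n) 1 g :=
      ms_congr (Q n) (D n) hg.coeFn_toLp 1
    rw [h2]
    exact (hms n).le
  obtain ⟨h, c, hh0, hWh⟩ := hV (Lp ℂ 2 (mm r)) (Fin r → ℤ) e (opW θ (fun x => a • f x) hfm)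
    P gL ε hε hP1 (fun n F G => hP2 n F G) hP4
    (by
      intro B
      obtain ⟨K, hK⟩ := spread B
      filter_upwards [eventually_gt_atTop K] with n hn
      have h1 : ∀ X ∈ B, ‖P n (e X)‖ ^ 2 = ms (Q n) (D n) 1 (fun x => mFourier X x) := by
        intro X _
        rw [hP5 n]
        exact ms_congr (Q n) (D n) (he X) 1
      rw [Finset.sum_congr rfl h1]
      exact hs_bound (Q n) (D n) hT hC (hq1 n) B
        (inj_mod B K (Q n) hK (lt_of_lt_of_le hn (hQ1 n))) (hD n).1) hmsP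
  exact eigen hE θ f hθ hNE a ha hfm h c hh0 hWh

end Pool.Agent.Helper40.JZ
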