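import Pool.Agent.Helper92.JZ.OPW
import Pool.Agent.Helper84.AZ.EQD

/-! Module COB: averages of a continuous cocycle over a minimal rotation of the torus. -/

set_option autoImplicit false

open Finset Filter MeasureTheory Topology
open scoped ComplexConjugate InnerProductSpace

namespace Pool.Agent.Helper40.JZ

open Pool.Agent.Helper16.AZ (T E Op mm fc Ind)

namespace COBP

open OPW

variable {r : ℕ}

/-- the averages `(1/K) ∑_{j<K} e(cs_j z) g(z + jβ)` -/
noncomputable def FK (β : T r) (l : T r → U) (g : T r → ℂ) (K : ℕ) (z : T r) : ℂ :=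
  (∑ j ∈ range K, fourier 1 (cs β l j z) * g (z + j • β)) / (K : ℂ)

theorem shift (a : ℕ → ℂ) (B : ℝ) (hB : ∀ n, ‖a n‖ ≤ B) (M j : ℕ) :
    ‖∑ n ∈ range M, a (n + j) - ∑ n ∈ range M, a n‖ ≤ 2 * j * B := by
  induction j with
  | zero => simp
  | succ j ih =>
    have h1 : ∑ n ∈ range M, a (n + (j + 1)) =
        ∑ n ∈ range M, a (n + j) + a (M + j) - a j := by
      have e1 := Finset.sum_range_succ (fun n => a (n + j)) M
      have e2 := Finset.sum_range_succ' (fun n => a (n + j)) M
      simp only [zero_add] at e2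
      have e3 : ∑ n ∈ range M, a (n + (j + 1)) = ∑ n ∈ range M, a (n + 1 + j) :=
        Finset.sum_congr rfl fun n _ => by congr 1; ring
      rw [e3]
      rw [e1] at e2
      linear_combination -e2
    have h2 : ∑ n ∈ range M, a (n + (j + 1)) - ∑ n ∈ range M, a n =
        (∑ n ∈ range M, a (n + j) - ∑ n ∈ range M, a n) + (a (M + j) - a j) := by
      rw [h1]; ring
    rw [h2]
    refine (norm_add_le _ _).trans ?_
    have h3 : ‖a (M + j) - a j‖ ≤ B + B := (norm_sub_le _ _).trans (add_le_add (hB _) (hB _))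
    push_cast
    linarith

theorem block (β : T r) (l : T r → U) (g : T r → ℂ) (z₀ : T r) (B : ℝ) (hB : ∀ z, ‖g z‖ ≤ B)
    (K : ℕ) (hK : 1 ≤ K) (M : ℕ) :
    ‖∑ n ∈ range M, fourier 1 (cs β l n z₀) * g (z₀ + n • β)‖ ≤
      ∑ n ∈ range M, ‖FK β l g K (z₀ + n • β)‖ + 2 * K * B := by
  set a : ℕ → ℂ := fun n => fourier 1 (cs β l n z₀) * g (z₀ + n • β) with ha
  have hB0 : 0 ≤ B := (norm_nonneg _).trans (hB z₀)
  have haB : ∀ n, ‖a n‖ ≤ B := fun n => by
    simp only [ha]
    rw [norm_mul, norm_e, one_mul]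
    exact hB _
  have hKc : (K : ℂ) ≠ 0 := by exact_mod_cast Nat.one_le_iff_ne_zero.mp hK
  have hKr : (0 : ℝ) < K := by exact_mod_cast hK
  have h1 : ∀ n j, a (n + j) = fourier 1 (cs β l n z₀) *
      (fourier 1 (cs β l j (z₀ + n • β)) * g (z₀ + n • β + j • β)) := by
    intro n j
    simp only [ha]
    rw [cs_add, e_add, add_smul, ← add_assoc]
    ring
  have h2 : ∑ j ∈ range K, ∑ n ∈ range M, a (n + j) =
      (K : ℂ) * ∑ n ∈ range M, fourier 1 (cs β l n z₀) * FK β l g K (z₀ + n • β) := by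
    rw [Finset.sum_comm, Finset.mul_sum]
    refine Finset.sum_congr rfl fun n _ => ?_
    unfold FK
    rw [show (K : ℂ) * (fourier 1 (cs β l n z₀) *
      ((∑ j ∈ range K, fourier 1 (cs β l j (z₀ + n • β)) * g (z₀ + n • β + j • β)) / (K : ℂ))) =
      fourier 1 (cs β l n z₀) *
      (∑ j ∈ range K, fourier 1 (cs β l j (z₀ + n • β)) * g (z₀ + n • β + j • β)) by
        field_simp]
    rw [Finset.mul_sum]
    exact Finset.sum_congr rfl fun j _ => h1 n j
  have h3 : ‖∑ j ∈ range K, (∑ n ∈ range M, a (n + j) - ∑ n ∈ range M, a n)‖ ≤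
      (K : ℝ) * (2 * K * B) := by
    refine (norm_sum_le _ _).trans ?_
    have h4 : ∀ j ∈ range K, ‖∑ n ∈ range M, a (n + j) - ∑ n ∈ range M, a n‖ ≤ 2 * K * B := by
      intro j hj
      refine (shift a B haB M j).trans ?_
      have : (j : ℝ) ≤ K := by exact_mod_cast (Finset.mem_range.mp hj).le
      have := mul_le_mul_of_nonneg_right this hB0
      nlinarith
    refine (Finset.sum_le_sum h4).trans ?_
    rw [Finset.sum_const, Finset.card_range, nsmul_eq_mul]
  rw [Finset.sum_sub_distrib, h2, Finset.sum_const, Finset.card_range, nsmul_eq_mul,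
    ← mul_sub, norm_mul, Complex.norm_natCast] at h3
  have h5 := le_of_mul_le_mul_left h3 hKr
  have h6 : ‖∑ n ∈ range M, a n‖ ≤
      ‖∑ n ∈ range M, fourier 1 (cs β l n z₀) * FK β l g K (z₀ + n • β)‖ + 2 * K * B := by
    have h7 : ∑ n ∈ range M, a n =
        ∑ n ∈ range M, fourier 1 (cs β l n z₀) * FK β l g K (z₀ + n • β) -
        (∑ n ∈ range M, fourier 1 (cs β l n z₀) * FK β l g K (z₀ + n • β) -
          ∑ n ∈ range M, a n) := by ring
    calc ‖∑ n ∈ range M, a n‖ = ‖∑ n ∈ range M, fourier 1 (cs β l n z₀) *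
          FK β l g K (z₀ + n • β) -
        (∑ n ∈ range M, fourier 1 (cs β l n z₀) * FK β l g K (z₀ + n • β) -
          ∑ n ∈ range M, a n)‖ := by rw [← h7]
      _ ≤ _ := norm_sub_le _ _
      _ ≤ _ := by gcongr
  refine h6.trans ?_
  gcongr
  refine (norm_sum_le _ _).trans (Finset.sum_le_sum fun n _ => ?_)
  rw [norm_mul, norm_e, one_mul]

theorem l1_le {f : T r → ℂ} (hf : MemLp f 2 (mm r)) :
    ∫ z, ‖f z‖ ∂(mm r) ≤ (eLpNorm f 2 (mm r)).toReal := by
  rw [integral_norm_eq_lintegral_enorm hf.1, ← eLpNorm_one_eq_lintegral_enorm]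
  exact ENNReal.toReal_mono hf.2.ne (eLpNorm_le_eLpNorm_of_exponent_le (by norm_num) hf.1)

theorem continuous_cs (β : T r) {l : T r → U} (hl : Continuous l) (n : ℕ) :
    Continuous (cs β l n) := by
  unfold cs
  exact continuous_finsetSum _ fun j _ => hl.comp (continuous_id.add continuous_const)

theorem continuous_FK (β : T r) {l : T r → U} (hl : Continuous l) {g : T r → ℂ}
    (hg : Continuous g) (K : ℕ) : Continuous (FK β l g K) := by
  unfold FK
  refine Continuous.div_const (continuous_finsetSum _ fun j _ => ?_) _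
  exact ((fourier 1).continuous.comp (continuous_cs β hl j)).mul
    (hg.comp (continuous_id.add continuous_const))

theorem memLp_cont {g : T r → ℂ} (hg : Continuous g) : MemLp g 2 (mm r) := by
  obtain ⟨B, hB⟩ := isCompact_univ.exists_bound_of_continuousOn hg.continuousOn
  exact MemLp.of_bound hg.aestronglyMeasurable B (ae_of_all _ fun z => hB z trivial)

/-- the limit of the averages -/
theorem main_bound (β : T r) (hβ : Ind β) (l : T r → U) (hl : Continuous l) (g : T r → ℂ)
    (hg : Continuous g) (z₀ : T r) :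
    ∃ h : Lp ℂ 2 (mm r), opW β l hl.measurable h = h ∧
      (∀ v : Lp ℂ 2 (mm r), opW β l hl.measurable v = v →
        (inner ℂ v h : ℂ) = inner ℂ v ((memLp_cont hg).toLp g)) ∧
      ∀ ε : ℝ, 0 < ε → ∀ᶠ M : ℕ in atTop,
        ‖∑ n ∈ range M, fourier 1 (cs β l n z₀) * g (z₀ + n • β)‖ ≤
          (∫ z, ‖(h : T r → ℂ) z‖ ∂(mm r) + ε) * M := by
  set W := opW β l hl.measurable with hW
  set gL : Lp ℂ 2 (mm r) := (memLp_cont hg).toLp g with hgL
  have hlim := ContinuousLinearMap.tendsto_birkhoffAverage_orthogonalProjection W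
    (opW_norm β l hl.measurable) gL
  set S := W.eqLocus (1 : Lp ℂ 2 (mm r) →L[ℂ] Lp ℂ 2 (mm r)) with hS
  set h : Lp ℂ 2 (mm r) := ((S.orthogonalProjectionOnto gL : S) : Lp ℂ 2 (mm r)) with hh
  have hmem : h ∈ S := (S.orthogonalProjectionOnto gL).2
  refine ⟨h, ?_, ?_, ?_⟩
  · exact hmem
  · intro v hv
    have hvS : v ∈ S := hv
    have h1 : (inner ℂ v (gL - h) : ℂ) = 0 := by
      have := Submodule.sub_starProjection_mem_orthogonal (K := S) gL
      exact (Submodule.mem_orthogonal _ _).mp this v hvS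
    rw [inner_sub_right, sub_eq_zero] at h1
    exact h1.symm
  · intro ε hε
    obtain ⟨B, hB'⟩ := isCompact_univ.exists_bound_of_continuousOn hg.continuousOn
    have hB : ∀ z, ‖g z‖ ≤ B := fun z => hB' z trivial
    have hB0 : 0 ≤ B := (norm_nonneg _).trans (hB z₀)
    -- choose K
    have hK1 : ∀ᶠ K : ℕ in atTop, ‖birkhoffAverage ℂ W _root_.id K gL - h‖ < ε / 3 := by
      have := (tendsto_iff_norm_sub_tendsto_zero.mp hlim).eventually (gt_mem_nhds
        (show (0 : ℝ) < ε / 3 by positivity))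
      exact this
    obtain ⟨K, hK, hKpos⟩ := (hK1.and (eventually_ge_atTop 1)).exists
    -- the average is FK
    have hae : ∀ᵐ z ∂(mm r), ((birkhoffAverage ℂ W _root_.id K gL : Lp ℂ 2 (mm r)) : T r → ℂ) z =
        FK β l g K z := by
      have e0 : birkhoffAverage ℂ W _root_.id K gL = ((K : ℂ)⁻¹) • ∑ j ∈ range K, W^[j] gL := by
        simp [birkhoffAverage, birkhoffSum]
      rw [e0]
      have e1 := Lp.coeFn_smul ((K : ℂ)⁻¹) (∑ j ∈ range K, W^[j] gL)
      have e2 : ∀ s : Finset ℕ, ∀ᵐ z ∂(mm r), ((∑ j ∈ s, W^[j] gL : Lp ℂ 2 (mm r)) :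
          T r → ℂ) z = ∑ j ∈ s, fourier 1 (cs β l j z) * g (z + j • β) := by
        intro s
        induction s using Finset.induction_on with
        | empty =>
          filter_upwards [Lp.coeFn_zero ℂ 2 (mm r)] with z hz
          simp [hz]
        | insert a s ha ih =>
          have e3 := opW_pow_ae β l hl.measurable gL a
          have e4 := (mp_add (a • β)).quasiMeasurePreserving.ae
            ((memLp_cont (r := r) hg).coeFn_toLp)
          have e5 := Lp.coeFn_add (W^[a] gL) (∑ j ∈ s, W^[j] gL)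
          rw [Finset.sum_insert ha]
          filter_upwards [ih, e3, e4, e5] with z h1 h2 h3 h4
          rw [h4, Pi.add_apply, h1, Finset.sum_insert ha, h2]
          congr 2
      filter_upwards [e1, e2 (range K)] with z h1 h2
      rw [h1, Pi.smul_apply, h2, smul_eq_mul, FK]
      rw [div_eq_inv_mul]
    have hFm : MemLp (FK β l g K) 2 (mm r) := memLp_cont (continuous_FK β hl hg K)
    have hint : ∫ z, ‖FK β l g K z‖ ∂(mm r) ≤ ∫ z, ‖(h : T r → ℂ) z‖ ∂(mm r) + ε / 3 := by
      have hsub : MemLp (fun z => FK β l g K z - (h : T r → ℂ) z) 2 (mm r) :=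
        hFm.sub (Lp.memLp h)
      have h1 : ∫ z, ‖FK β l g K z - (h : T r → ℂ) z‖ ∂(mm r) ≤ ε / 3 := by
        refine (l1_le hsub).trans ?_
        have e3 : eLpNorm (fun z => FK β l g K z - (h : T r → ℂ) z) 2 (mm r) =
            eLpNorm ((birkhoffAverage ℂ W _root_.id K gL - h : Lp ℂ 2 (mm r)) : T r → ℂ) 2
              (mm r) := by
          refine eLpNorm_congr_ae ?_
          filter_upwards [hae, Lp.coeFn_sub (birkhoffAverage ℂ W _root_.id K gL) h] with z h1 h2
          rw [h2, Pi.sub_apply, h1]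
        rw [e3]
        exact hK.le
      have i1 : Integrable (fun z => ‖FK β l g K z - (h : T r → ℂ) z‖) (mm r) :=
        (hsub.integrable (by norm_num)).norm
      have i2 : Integrable (fun z => ‖(h : T r → ℂ) z‖) (mm r) :=
        ((Lp.memLp h).integrable (by norm_num)).norm
      calc ∫ z, ‖FK β l g K z‖ ∂(mm r) ≤
          ∫ z, (‖FK β l g K z - (h : T r → ℂ) z‖ + ‖(h : T r → ℂ) z‖) ∂(mm r) := by
            refine integral_mono (hFm.integrable (by norm_num)).norm (i1.add i2) fun z => ?_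
            have := norm_add_le (FK β l g K z - (h : T r → ℂ) z) ((h : T r → ℂ) z)
            rwa [sub_add_cancel] at this
        _ = ∫ z, ‖FK β l g K z - (h : T r → ℂ) z‖ ∂(mm r) +
            ∫ z, ‖(h : T r → ℂ) z‖ ∂(mm r) := integral_add i1 i2
        _ ≤ _ := by linarith
    -- equidistribution
    have heq := Pool.Agent.Helper16.AZ.st_EQD r β hβ (fun z => ((‖FK β l g K z‖ : ℝ) : ℂ))
      (Complex.continuous_ofReal.comp (continuous_FK β hl hg K).norm) z₀
    have heq2 : Tendsto (fun N : ℕ => (∑ n ∈ range N, ‖FK β l g K (z₀ + n • β)‖) / (N : ℝ))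
        atTop (𝓝 (∫ z, ‖FK β l g K z‖ ∂(mm r))) := by
      have h1 : ∫ z, ((‖FK β l g K z‖ : ℝ) : ℂ) ∂(mm r) =
          ((∫ z, ‖FK β l g K z‖ ∂(mm r) : ℝ) : ℂ) := integral_ofReal
      rw [h1] at heq
      have h2 := (Complex.continuous_re.tendsto _).comp heq
      rw [Complex.ofReal_re] at h2
      refine h2.congr fun N => ?_
      simp only [Function.comp_apply]
      rw [← Complex.ofReal_sum, ← Complex.ofReal_natCast, ← Complex.ofReal_div,
        Complex.ofReal_re]
    have h3 : ∀ᶠ N : ℕ in atTop, (∑ n ∈ range N, ‖FK β l g K (z₀ + n • β)‖) / (N : ℝ) <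
        ∫ z, ‖FK β l g K z‖ ∂(mm r) + ε / 3 :=
      heq2.eventually (gt_mem_nhds (by linarith))
    have h4 : ∀ᶠ N : ℕ in atTop, 2 * K * B ≤ ε / 3 * N := by
      have := tendsto_natCast_atTop_atTop (R := ℝ)
      filter_upwards [this.eventually_ge_atTop (2 * K * B / (ε / 3))] with N hN
      rw [div_le_iff₀ (by positivity)] at hN
      linarith
    filter_upwards [h3, h4, eventually_ge_atTop 1] with M h5 h6 h7
    have hM : (0 : ℝ) < M := by exact_mod_cast h7
    rw [div_lt_iff₀ hM] at h5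
    have h8 := block β l g z₀ B hB K hKpos M
    calc ‖∑ n ∈ range M, fourier 1 (cs β l n z₀) * g (z₀ + n • β)‖ ≤ _ := h8
      _ ≤ (∫ z, ‖FK β l g K z‖ ∂(mm r) + ε / 3) * M + ε / 3 * M := by linarith
      _ ≤ ((∫ z, ‖(h : T r → ℂ) z‖ ∂(mm r) + ε / 3) + ε / 3) * M + ε / 3 * M := by
        gcongr
      _ = _ := by ring

end COBP

open OPW COBP in
theorem st_COB (hE : ST_ERG) : ST_COB := by
  intro r β hβ l g z₀ hl hg
  obtain ⟨h, hfix, hproj, hbd⟩ := main_bound β hβ l hl g hg z₀
  have hfix' : ∀ᵐ z ∂(mm r), fourier 1 (l z) * (h : T r → ℂ) (z + β) = (h : T r → ℂ) z := by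
    filter_upwards [opW_ae β l hl.measurable h] with z hz
    rw [← hz, hfix]
  refine ⟨fun hno => ?_, fun u hu hue ε hε => ?_⟩
  · have h0 : ∀ᵐ z ∂(mm r), (h : T r → ℂ) z = 0 := by
      by_contra hc
      obtain ⟨u, hu1, hu2⟩ := transfer hE β hβ l (Lp.memLp h) hfix' hc
      exact hno u hu1 hu2
    have h1 : ∫ z, ‖(h : T r → ℂ) z‖ ∂(mm r) = 0 := by
      rw [integral_eq_zero_of_ae]
      filter_upwards [h0] with z hz
      simp [hz]
    rw [tendsto_zero_iff_norm_tendsto_zero, Metric.tendsto_atTop]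
    intro ε hε
    obtain ⟨N, hN⟩ := eventually_atTop.mp (hbd (ε / 2) (by positivity))
    refine ⟨max N 1, fun M hM => ?_⟩
    have h2 := hN M ((le_max_left _ _).trans hM)
    have hM1 : (0 : ℝ) < M := by
      exact_mod_cast (le_max_right _ _).trans hM
    rw [h1, zero_add] at h2
    rw [Real.dist_eq, sub_zero, abs_of_nonneg (norm_nonneg _), norm_div, Complex.norm_natCast,
      div_lt_iff₀ hM1]
    nlinarith
  · have hum : Measurable fun z => (fourier 1 (u z) : ℂ) := meas_e hu 1
    have hvm : MemLp (fun z => conj (fourier 1 (u z) : ℂ)) 2 (mm r) := by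
      refine MemLp.of_bound (Complex.continuous_conj.measurable.comp hum).aestronglyMeasurable 1
        (ae_of_all _ fun z => ?_)
      rw [Complex.norm_conj, norm_e]
    set v : Lp ℂ 2 (mm r) := hvm.toLp _ with hv
    have hve := hvm.coeFn_toLp
    have hvfix : opW β l hl.measurable v = v := by
      apply Lp.ext
      have h1 := (mp_add β).quasiMeasurePreserving.ae hve
      filter_upwards [opW_ae β l hl.measurable v, hve, h1, hue] with z h2 h3 h4 h5
      rw [h2, h3, h4, h5, e_add, map_mul, ← mul_assoc, mul_comm (fourier 1 (l z) : ℂ), e_conj,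
        one_mul]
    have hpr := hproj v hvfix
    rw [L2.inner_def, L2.inner_def] at hpr
    have e1 : ∫ z, (inner ℂ ((v : T r → ℂ) z) ((h : T r → ℂ) z) : ℂ) ∂(mm r) =
        ∫ z, fourier 1 (u z) * (h : T r → ℂ) z ∂(mm r) := by
      refine integral_congr_ae ?_
      filter_upwards [hve] with z hz
      rw [hz, RCLike.inner_apply]
      simp [mul_comm]
    have e2 : ∫ z, (inner ℂ ((v : T r → ℂ) z)
        (((memLp_cont hg).toLp g : Lp ℂ 2 (mm r)) z) : ℂ) ∂(mm r) =
        ∫ z, fourier 1 (u z) * g z ∂(mm r) := by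
      refine integral_congr_ae ?_
      filter_upwards [hve, (memLp_cont hg).coeFn_toLp] with z hz hz2
      rw [hz, hz2, RCLike.inner_apply]
      simp [mul_comm]
    rw [e1, e2] at hpr
    obtain ⟨c, hc⟩ := (hE r β hβ).2.2 _ (memLp_mul hu 1 (Lp.memLp h)) (by
      filter_upwards [hfix', hue] with z h1 h2
      rw [h2, e_add, ← h1]
      ring)
    have e3 : ∫ z, fourier 1 (u z) * (h : T r → ℂ) z ∂(mm r) = c := by
      rw [integral_congr_ae hc, integral_const]
      simp
    have e4 : ∫ z, ‖(h : T r → ℂ) z‖ ∂(mm r) = ‖c‖ := by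
      have : ∀ᵐ z ∂(mm r), ‖(h : T r → ℂ) z‖ = ‖c‖ := by
        filter_upwards [hc] with z hz
        rw [← hz, norm_mul, norm_e, one_mul]
      rw [integral_congr_ae this, integral_const]
      simp
    have e5 : ∫ z, ‖(h : T r → ℂ) z‖ ∂(mm r) = ‖∫ z, fourier 1 (u z) * g z ∂(mm r)‖ := by
      rw [e4, ← e3, hpr]
    rw [← e5]
    exact hbd ε hε

end Pool.Agent.Helper40.JZ
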