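import Pool.Agent.Helper40.JZ.Stmts

/-! The operator `g ↦ e(l) g(· + β)` on the square integrable functions. -/

set_option autoImplicit false

open Finset Filter MeasureTheory Topology
open scoped ComplexConjugate InnerProductSpace

namespace Pool.Agent.Helper40.JZ

open Pool.Agent.Helper16.AZ (T E Op mm fc Ind)

namespace OPW

variable {r : ℕ}

theorem norm_e (j : ℤ) (t : U) : ‖(fourier j t : ℂ)‖ = 1 := by
  rw [fourier_apply]
  exact Circle.norm_coe _

theorem e_add (j : ℤ) (t s : U) : (fourier j (t + s) : ℂ) = fourier j t * fourier j s := by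
  simp only [fourier_apply, smul_add, AddCircle.toCircle_add, Circle.coe_mul]

theorem e_conj (j : ℤ) (t : U) : conj (fourier j t : ℂ) * fourier j t = 1 := by
  rw [← Complex.normSq_eq_conj_mul_self, Complex.normSq_eq_norm_sq, norm_e]
  norm_num

theorem mp_add (β : T r) : MeasurePreserving (fun z : T r => z + β) (mm r) (mm r) :=
  measurePreserving_add_right (mm r) β

theorem meas_e {l : T r → U} (hl : Measurable l) (j : ℤ) :
    Measurable fun z => (fourier j (l z) : ℂ) :=
  (fourier j).continuous.measurable.comp hl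

theorem memLp_mul {l : T r → U} (hl : Measurable l) (j : ℤ) {f : T r → ℂ}
    (hf : MemLp f 2 (mm r)) : MemLp (fun z => fourier j (l z) * f z) 2 (mm r) := by
  refine hf.of_le ((meas_e hl j).aestronglyMeasurable.mul hf.1) (ae_of_all _ fun z => ?_)
  rw [norm_mul, norm_e, one_mul]

theorem memLp_shift (β : T r) {f : T r → ℂ} (hf : MemLp f 2 (mm r)) :
    MemLp (fun z => f (z + β)) 2 (mm r) := hf.comp_measurePreserving (mp_add β)

theorem memLp_op (β : T r) {l : T r → U} (hl : Measurable l) {f : T r → ℂ}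
    (hf : MemLp f 2 (mm r)) : MemLp (fun z => fourier 1 (l z) * f (z + β)) 2 (mm r) :=
  memLp_mul hl 1 (memLp_shift β hf)

theorem eLpNorm_op (β : T r) (l : T r → U) {f : T r → ℂ}
    (hf : MemLp f 2 (mm r)) :
    eLpNorm (fun z => fourier 1 (l z) * f (z + β)) 2 (mm r) = eLpNorm f 2 (mm r) := by
  have h1 : eLpNorm (fun z => fourier 1 (l z) * f (z + β)) 2 (mm r) =
      eLpNorm (f ∘ fun z => z + β) 2 (mm r) := by
    refine eLpNorm_congr_norm_ae (ae_of_all _ fun z => ?_)
    simp only [Function.comp_apply]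
    rw [norm_mul, norm_e, one_mul]
  rw [h1, eLpNorm_comp_measurePreserving hf.1 (mp_add β)]

/-- the operator `g ↦ e(l) g(· + β)` -/
noncomputable def opW (β : T r) (l : T r → U) (hl : Measurable l) :
    Lp ℂ 2 (mm r) →L[ℂ] Lp ℂ 2 (mm r) :=
  LinearMap.mkContinuous
    { toFun := fun f => (memLp_op β hl (Lp.memLp f)).toLp _
      map_add' := by
        intro f g
        rw [← MemLp.toLp_add]
        refine MemLp.toLp_congr _ _ ?_
        have h1 := (mp_add β).quasiMeasurePreserving.ae (Lp.coeFn_add f g)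
        filter_upwards [h1] with z hz
        simp only [Pi.add_apply] at hz ⊢
        rw [hz]
        ring
      map_smul' := by
        intro c f
        rw [← MemLp.toLp_const_smul]
        refine MemLp.toLp_congr _ _ ?_
        have h1 := (mp_add β).quasiMeasurePreserving.ae (Lp.coeFn_smul c f)
        filter_upwards [h1] with z hz
        simp only [Pi.smul_apply, smul_eq_mul, RingHom.id_apply] at hz ⊢
        rw [hz]
        ring } 1 (by
    intro f
    rw [one_mul]
    show ‖(memLp_op β hl (Lp.memLp f)).toLp _‖ ≤ ‖f‖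
    rw [Lp.norm_toLp, eLpNorm_op β l (Lp.memLp f)]
    exact le_of_eq rfl)

theorem opW_ae (β : T r) (l : T r → U) (hl : Measurable l) (f : Lp ℂ 2 (mm r)) :
    ∀ᵐ z ∂(mm r), (opW β l hl f : T r → ℂ) z = fourier 1 (l z) * (f : T r → ℂ) (z + β) :=
  (memLp_op β hl (Lp.memLp f)).coeFn_toLp

theorem opW_norm (β : T r) (l : T r → U) (hl : Measurable l) : ‖opW β l hl‖ ≤ 1 :=
  LinearMap.mkContinuous_norm_le _ zero_le_one _

theorem opW_pow_ae (β : T r) (l : T r → U) (hl : Measurable l) (f : Lp ℂ 2 (mm r)) (n : ℕ) :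
    ∀ᵐ z ∂(mm r), (((opW β l hl)^[n] f : Lp ℂ 2 (mm r)) : T r → ℂ) z =
      fourier 1 (cs β l n z) * (f : T r → ℂ) (z + n • β) := by
  induction n with
  | zero =>
    refine ae_of_all _ fun z => ?_
    simp [cs_zero]
  | succ n ih =>
    rw [Function.iterate_succ_apply']
    have h1 := (mp_add β).quasiMeasurePreserving.ae ih
    filter_upwards [opW_ae β l hl ((opW β l hl)^[n] f), h1] with z h2 h3
    rw [h2, h3, ← mul_assoc, ← e_add]
    have e1 : cs β l (n + 1) z = l z + cs β l n (z + β) := by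
      have := cs_add β l 1 n z
      rw [add_comm 1 n, one_smul] at this
      rw [this]
      congr 1
      simp [cs]
    rw [e1, add_assoc, succ_nsmul']

/-- a fixed vector gives a transfer function -/
theorem transfer (hE : ST_ERG) (β : T r) (hβ : Ind β) (l : T r → U) {h : T r → ℂ}
    (hh : MemLp h 2 (mm r)) (hfix : ∀ᵐ z ∂(mm r), fourier 1 (l z) * h (z + β) = h z)
    (hne : ¬ ∀ᵐ z ∂(mm r), h z = 0) :
    ∃ u : T r → U, Measurable u ∧ ∀ᵐ z ∂(mm r), u (z + β) = l z + u z := by
  have hn : MemLp (fun z => ((‖h z‖ : ℝ) : ℂ)) 2 (mm r) := by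
    refine hh.of_le ?_ (ae_of_all _ fun z => ?_)
    · exact Complex.continuous_ofReal.comp_aestronglyMeasurable hh.1.norm
    · rw [Complex.norm_real, norm_norm]
  obtain ⟨c, hc⟩ := (hE r β hβ).2.2 _ hn (by
    filter_upwards [hfix] with z hz
    rw [← hz, norm_mul, norm_e, one_mul])
  have hc0 : c ≠ 0 := by
    intro h0
    apply hne
    filter_upwards [hc] with z hz
    rw [h0] at hz
    have : ‖h z‖ = 0 := by exact_mod_cast hz
    exact norm_eq_zero.mp this
  -- a measurable representative
  obtain ⟨k, hk, hhk⟩ := hh.1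
  have hkm : Measurable k := hk.measurable
  have hnk : ∀ᵐ z ∂(mm r), k z ≠ 0 := by
    filter_upwards [hhk, hc] with z h1 h2 h3
    rw [← h1] at h3
    rw [h3] at h2
    simp at h2
    exact hc0 h2.symm
  let w : T r → U := fun z => (((k z).arg / (2 * Real.pi) : ℝ) : U)
  have hw : Measurable w := by
    have h1 : Measurable fun z => (k z).arg / (2 * Real.pi) :=
      (Complex.measurable_arg.comp hkm).div_const _
    exact (AddCircle.measurable_mk' (a := (1 : ℝ))).comp h1
  have hwe : ∀ z, ((‖k z‖ : ℝ) : ℂ) * fourier 1 (w z) = k z := by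
    intro z
    have h1 : (fourier 1 (w z) : ℂ) = Complex.exp ((k z).arg * Complex.I) := by
      show (fourier 1 ((((k z).arg / (2 * Real.pi) : ℝ)) : U) : ℂ) = _
      rw [fourier_coe_apply]
      congr 1
      push_cast
      have : (2 * (Real.pi : ℂ)) ≠ 0 := by
        simp [Real.pi_ne_zero]
      field_simp
    rw [h1]
    exact Complex.norm_mul_exp_arg_mul_I (k z)
  refine ⟨fun z => - w z, hw.neg, ?_⟩
  have hk2 := (mp_add β).quasiMeasurePreserving.ae hhk
  have hc2 := (mp_add β).quasiMeasurePreserving.ae hc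
  filter_upwards [hhk, hk2, hfix, hc, hc2, hnk] with z h1 h2 h3 h4 h5 h6
  have e1 : ((‖k z‖ : ℝ) : ℂ) = c := by rw [← h1]; exact h4
  have e2 : ((‖k (z + β)‖ : ℝ) : ℂ) = c := by rw [← h2]; exact h5
  rw [h1, h2, ← hwe z, ← hwe (z + β), e1, e2] at h3
  have h7 : (fourier 1 (l z + w (z + β)) : ℂ) = fourier 1 (w z) := by
    rw [e_add]
    apply mul_left_cancel₀ hc0
    rw [← h3]
    ring
  have h8 : l z + w (z + β) = w z := by
    apply AddCircle.injective_toCircle (T := (1 : ℝ)) one_ne_zero
    apply Subtype.ext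
    simpa [fourier_apply] using h7
  rw [← h8]
  abel

end OPW

end Pool.Agent.Helper40.JZ
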